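import Pool.Agent.MP_477625_lc.H71.Gch

/-! The set-theoretic core of the argument, without a characterization of the cardinal. -/

namespace Pool.Agent.MP_477625_lc.H75
open ZFSet Cardinal

universe u v

set_option linter.unusedVariables false
set_option linter.unusedSectionVars false
set_option synthInstance.maxSize 100000

structure Setup2 (κ : Cardinal.{0}) (U : ZF) (c : Cardinal.{0}) (σ : List ℕ) (S : Set SO)
    (Φ : Set ZF → Set ZF → ZF → ZF → Prop) : Prop extends Ctx κ U c where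
  wf : ∀ φ ∈ S, φ.WF 0 σ
  nd : ND2 fun n _ => ∃ φ ∈ S, φ.code = n
  df : Df ℕ fun M U v => Φ M U (v 0) (v 1)

namespace Setup2
variable {κ c : Cardinal.{0}} {U : ZF} {σ : List ℕ} {S : Set SO}
  {Φ : Set ZF → Set ZF → ZF → ZF → Prop} (T : Setup2 κ U c σ S Φ)
include T

theorem sol3 {X X' : Set ZF} (h : Hull c X) (h' : Hull c X') (hs : X' ⊆ X) {x : ZF} (hx : x ∈ X)
    (hm : x ∈ MM c S Φ) (hno : ∀ w ∈ X', w ∉ MM c S Φ) {G : ZF} (hG : G ∈ Om κ U c X)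
    (hG' : G ⊆ Tr (col X (cardSet c))) : ∃ y ∈ X, ∀ b ∈ X, b ∈ Tr (cardSet c) → ∀ w ∈ X',
      w ⊆ Tr (cardSet c) → sec G (col X b) = col X' w → ∀ φ : SO, φ.WF 0 σ →
      (pair b (nat φ.code) ∈ y ↔ HenS (cardSet c) (HC c) φ w) := by
  by_cases e : Om κ U c X' = Om κ U c X
  · refine h.sol2 T.toCtx h' hs e (fun e1 => ?_) hG hG' σ
    obtain ⟨x', h1, h2⟩ := h.om_eq2 T.toCtx h' hs e e1 hx
    exact hno x' h1 ⟨(h2 fun _ _ d x => x ⊆ Tr d).1 hm.1, (h2 Φ (hR := T.df)).1 hm.2.1,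
      fun φ hφ => (h2 fun M _ d x => HenS d M φ x).1 (hm.2.2 φ hφ)⟩
  · exact h.sol T.toCtx h' hs e hG σ

theorem fin {X : Set ZF} (h : Hull c X) {π : ZF → ZF} (hπ : PE (HC c) X π)
    (hd : π (cardSet c) = cardSet c) (Q : Set ZF → Set ZF → ZF → ZF → ZF → ZF → ZF → ZF → Prop)
    [hQ : Df ℕ fun M U v => Q M U (v 0) (v 1) (v 2) (v 3) (v 4) (v 5)] {z t a y : ZF}
    (hz : z ∈ X) (ht : t ∈ X) (ha : a ∈ X) (hy : y ∈ X)
    (cor : ∀ b ∈ X, b ∈ Tr (cardSet c) → ∀ w ∈ HC c, w ⊆ Tr (cardSet c) →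
      Q (HC c) ∅ (cardSet c) z t a b w → ∀ φ : SO, φ.WF 0 σ →
      (pair b (nat φ.code) ∈ y ↔ HenS (cardSet c) (HC c) φ w))
    (ex : ∃ b ∈ Tr (cardSet c), ∃ w ∈ MM c S Φ,
      Q (HC c) ∅ (cardSet c) (π z) (π t) (π a) b w) :
    ∃ b ∈ Tr (cardSet c), ∃ w ∈ MM c S Φ, Q (HC c) ∅ (cardSet c) z t a b w := by
  have i : ∀ {K : Type} {a b c d e f : Set ZF → Set ZF → (K → ZF) → ZF} [DT K a] [DT K b] [DT K c]
      [DT K d] [DT K e] [DT K f], Df K fun M U v =>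
      Q M U (a M U v) (b M U v) (c M U v) (d M U v) (e M U v) (f M U v) := Df.sub6 hQ _ _ _ _ _ _
  have i' : ∀ {K : Type} {a b : Set ZF → Set ZF → (K → ZF) → ZF} [DT K a] [DT K b],
      Df K fun M U v => Φ M U (a M U v) (b M U v) := Df.sub2 T.df _ _
  have nd := T.nd
  have c1 : ∀ φ : SO, φ.WF 0 σ → ∀ b ∈ Tr (cardSet c), ∀ w ∈ HC c, w ⊆ Tr (cardSet c) →
      Q (HC c) ∅ (cardSet c) z t a b w →
      (pair b (nat φ.code) ∈ y ↔ HenS (cardSet c) (HC c) φ w) := by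
    intro φ hφ b hb w hw h1 h2
    by_contra hc
    obtain ⟨b, h3, h4, w, h5, h6, h7, h8⟩ := h.tv.df (K := ℕ) h.good (fun M U v =>
      v none ∈ Tr (v (some 0)) ∧ ∃ w ∈ M, w ⊆ Tr (v (some 0)) ∧
      Q M U (v (some 0)) (v (some 1)) (v (some 2)) (v (some 3)) (v none) w ∧
      ¬ (pair (v none) (nat φ.code) ∈ v (some 4) ↔ HenS (v (some 0)) M φ w))
      (cons (cardSet c) (cons z (cons t (cons a fun _ => y))))
      (cons_mem h.hd (cons_mem hz (cons_mem ht (cons_mem ha fun _ => hy))))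
      ⟨b, HC.trans _ (HC.tr h.hc (HC.cardSet_mem h.hc)) b hb, hb, w, hw, h1, h2, hc⟩
    exact h8 (cor b h3 h4 w h5 h6 h7 φ hφ)
  have c2 := fun (φ : SO) (hφ : φ.WF 0 σ) => (hπ.t5 (fun M U d z t a y => ∀ b ∈ Tr d, ∀ w ∈ M,
    w ⊆ Tr d → Q M U d z t a b w → (pair b (nat φ.code) ∈ y ↔ HenS d M φ w))
    h.hd hz ht ha hy).1 (c1 φ hφ)
  rw [hd] at c2
  obtain ⟨b, hb, w, hw, h1⟩ := ex
  have hw' := HC.sub_tr h.hc hw.1
  obtain ⟨b, hb, w, hw', h1, h2, h3, h4⟩ := (hπ.t5 (fun M U d z t a y => ∃ b ∈ Tr d, ∃ w ∈ M,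
    w ⊆ Tr d ∧ Q M U d z t a b w ∧ Φ M U d w ∧ ∀ n ∈ om,
      N2 (fun n _ => ∃ φ ∈ S, φ.code = n) n n → pair b n ∈ y) h.hd hz ht ha hy).2 (by
    rw [hd]
    refine ⟨b, hb, w, hw', hw.1, h1, hw.2.1, all_om.2 fun n hn => ?_⟩
    obtain ⟨φ, hφ, rfl⟩ := n2_nat.1 hn
    exact (c2 φ (T.wf φ hφ) b hb w hw' hw.1 h1).2 (hw.2.2 φ hφ))
  exact ⟨b, hb, w, ⟨h1, h3, fun φ hφ => (c1 φ (T.wf φ hφ) b hb w hw' h1 h2).1
    (h4 _ (nat_mem_om _) (n2_nat.2 ⟨φ, hφ, rfl⟩))⟩, h2⟩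

theorem pred_dcl {w z : ZF} (hw : w ⊆ Tr (cardSet c)) (hz : z ⊆ Tr (cardSet c))
    (h : key U w ≤ key U z) : w ∈ dcl (HC c) ∅ ({cardSet c, z} ∪ (cardSet c : Set ZF)) := by
  have hB : {cardSet c, z} ∪ (cardSet c : Set ZF) ⊆ HC c := by
    rintro b ((rfl | rfl) | hb)
    exacts [HC.cardSet_mem T.hc, HC.sub_tr T.hc hz, HC.trans _ (HC.cardSet_mem T.hc) b hb]
  have mz := subset_dcl (U := ∅) hB (show z ∈ _ by simp)
  rcases h.eq_or_lt with h | h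
  · exact key_inj T.hV h ▸ mz
  · obtain ⟨e, h1, h2⟩ := (T.hull hB (by simp)).enum T.toCtx mz hz
    obtain ⟨b, hb, rfl⟩ := h2 w (HC.sub_tr T.hc hw) hw ((T.prec hw hz).2 h)
    exact sec_dcl T.hc hB h1 (subset_dcl hB (Or.inr hb))

theorem core (hE : ∀ x ∈ MM c S Φ, ∀ x' ∈ MM c S Φ, ∀ (R : Set ZF → Set ZF → ZF → ZF → Prop)
    [hR : Df ℕ fun M U v => R M U (v 0) (v 1)],
      R (HC c) ∅ (cardSet c) x ↔ R (HC c) ∅ (cardSet c) x') : (MM c S Φ).Subsingleton := by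
  classical
  suffices H : ∀ x0 ∈ MM c S Φ, ∃ x, ∀ x' ∈ MM c S Φ, x' = x from fun a ha b hb =>
    let ⟨x, hx⟩ := H a ha; (hx a ha).trans (hx b hb).symm
  intro x0 hx0
  have hc := T.hc
  have g := HC.good hc
  set d := cardSet c with hd
  have dH : d ∈ HC c := HC.cardSet_mem hc
  have dH' := HC.trans d dH
  have dO : d.IsOrdinal := cardSet_ord c
  have hB1 : ∀ z, z ⊆ Tr d → {d, z} ∪ (d : Set ZF) ⊆ HC c := by
    rintro z hz b ((rfl | rfl) | hb)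
    exacts [dH, HC.sub_tr hc hz, dH' b hb]
  have hB2 : ∀ z p, z ⊆ Tr d → p ⊆ d → ∀ b ∈ [d, z, p], b ∈ HC c := fun z p hz hp => by
    simp [dH, HC.sub_tr hc hz, HC.sub hc dH hp]
  obtain ⟨z, ⟨z1, x1, hx1, z2⟩, zmin⟩ := (InvImage.wf (key U) wellFounded_lt).has_min
    {z | z ⊆ Tr d ∧ ∃ x ∈ MM c S Φ, x ∈ dcl (HC c) ∅ ({d, z} ∪ (d : Set ZF))}
    ⟨x0, hx0.1, x0, hx0, subset_dcl (hB1 x0 hx0.1) (by simp)⟩
  have zH := HC.sub_tr hc z1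
  obtain ⟨p, ⟨p1, p2, x, hx, p3⟩, pmin⟩ := (InvImage.wf fq wellFounded_lt).has_min
    {p | FinOrd p ∧ p ⊆ d ∧ ∃ x ∈ MM c S Φ, x ∈ dcl (HC c) ∅ {b | b ∈ [d, z, p]}} (by
      obtain ⟨l, h1, h2⟩ := fin_supp g (hB1 z z1) z2
      have h3 : setL (l.filter (· ∈ d)) ⊆ d := fun b hb => by simpa using (List.mem_filter.1
        (mem_setL.1 hb)).2
      have h4 := finOrd_setL fun b hb => dO.mem (h3 (mem_setL.2 hb))
      have hB := hB2 z _ z1 h3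
      refine ⟨_, h4, h3, x1, hx1, h2 _ hB fun b hb => ?_⟩
      rcases h1 b hb with (rfl | rfl) | h5
      · exact mem_dcl_list hB (by simp)
      · exact mem_dcl_list hB (by simp)
      · exact elem_dcl g hB h4 (mem_dcl_list hB (by simp)) b (by simpa [hb] using h5))
  obtain ⟨τ, hτ⟩ := exists_tau g (hB2 z p z1 p2) p3
  have zmin' : ∀ w q x', w ⊆ Tr d → FinOrd q → q ⊆ d → x' ∈ MM c S Φ → Tau τ (HC c) ∅ d w q x' →
      key U z ≤ key U w := fun w q x' h1 h2 h3 h4 h5 => not_lt.1 (zmin w ⟨h1, x', h4,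
    h5.dcl g (hB1 w h1) (subset_dcl (hB1 w h1) (by simp)) (subset_dcl (hB1 w h1) (by simp))
      (fin_dcl g (hB1 w h1) h2.2 fun b hb => subset_dcl (hB1 w h1) (Or.inr (h3 hb)))
      (HC.sub_tr hc h4.1)⟩)
  have pmin' : ∀ q x', FinOrd q → q ⊆ d → x' ∈ MM c S Φ → Tau τ (HC c) ∅ d z q x' →
      fq p ≤ fq q := fun q x' h2 h3 h4 h5 => not_lt.1 (pmin q ⟨h2, h3, x', h4,
    have hB := hB2 z q z1 h3
    h5.dcl g hB (mem_dcl_list hB (by simp)) (mem_dcl_list hB (by simp))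
      (mem_dcl_list hB (by simp)) (HC.sub_tr hc h4.1)⟩)
  refine ⟨x, fun x' hx' => ?_⟩
  have xH := HC.sub_tr hc hx.1
  have pH := HC.sub hc dH p2
  obtain ⟨π, hπ, π1, π2⟩ := exists_PE g dH xH (HC.sub_tr hc hx'.1) (hE x hx x' hx')
  have hB : ∀ b ∈ [d, x], b ∈ HC c := by simp [dH, xH]
  have hC := T.hull (B := {b | b ∈ [d, x]}) hB (show d ∈ [d, x] by simp)
  set C := dcl (HC c) ∅ {b | b ∈ [d, x]} with hCdef
  have dC : d ∈ C := hC.hd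
  have xC : x ∈ C := mem_dcl_list hB (by simp)
  have zC : z ∈ C := by
    refine mem_dcl' g hB (fun M U v => (v 0 ⊆ Tr (v 1) ∧ ∃ q ∈ M, FinOrd q ∧ q ⊆ v 1 ∧
      Tau τ M U (v 1) (v 0) q (v 2)) ∧ ∀ w ∈ M, (w ⊆ Tr (v 1) ∧ ∃ q ∈ M, FinOrd q ∧ q ⊆ v 1 ∧
      Tau τ M U (v 1) w q (v 2)) → ¬ PrecH M (v 1) w (v 0)) (cons d fun _ => x)
      (cons_mem dC fun _ => xC) zH fun a _ => ⟨fun ⟨⟨h1, q, _, h2, h3, h4⟩, h5⟩ => ?_, ?_⟩
    · refine key_inj T.hV (le_antisymm (not_lt.1 fun h6 => ?_) (zmin' a q x h1 h2 h3 hx h4))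
      exact h5 z zH ⟨z1, p, pH, p1, p2, hτ⟩ ((T.prec z1 h1).2 h6)
    · rintro rfl
      exact ⟨⟨z1, p, pH, p1, p2, hτ⟩, fun w _ ⟨h1, q, _, h2, h3, h4⟩ h5 =>
        not_lt.2 (zmin' w q x h1 h2 h3 hx h4) ((T.prec h1 z1).1 h5)⟩
  have pC : p ∈ C := by
    refine mem_dcl' g hB (fun M U v => (FinOrd (v 0) ∧ v 0 ⊆ v 1 ∧
      Tau τ M U (v 1) (v 2) (v 0) (v 3)) ∧ ∀ q ∈ M, (FinOrd q ∧ q ⊆ v 1 ∧
      Tau τ M U (v 1) (v 2) q (v 3)) → ¬ Clx q (v 0)) (cons d (cons z fun _ => x))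
      (cons_mem dC (cons_mem zC fun _ => xC)) pH fun a _ => ⟨fun ⟨⟨h1, h2, h3⟩, h5⟩ => ?_, ?_⟩
    · refine fq_inj h1 p1 (le_antisymm (not_lt.1 fun h6 => ?_) (pmin' a x h1 h2 hx h3))
      exact h5 p pH ⟨p1, p2, hτ⟩ ((clx_iff p1 h1).2 h6)
    · rintro rfl
      exact ⟨⟨p1, p2, hτ⟩, fun q _ ⟨h1, h2, h3⟩ h5 =>
        not_lt.2 (pmin' q x h1 h2 hx h3) ((clx_iff h1 p1).1 h5)⟩
  have tr := (hπ.t4 (fun M U d z p x => z ⊆ Tr d ∧ FinOrd p ∧ p ⊆ d ∧ Tau τ M U d z p x)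
    dC zC pC xC).1 ⟨z1, p1, p2, hτ⟩
  rw [π1, π2] at tr
  obtain ⟨z1', p1', p2', hτ'⟩ := tr
  obtain ⟨lp, hlp⟩ := exists_setL p1.2
  have lpd : ∀ b ∈ lp, b ∈ d := fun b hb => p2 (hlp ▸ mem_setL.2 hb)
  rcases (zmin' _ _ _ z1' p1' p2' hx' hτ').lt_or_eq with hlt | heq
  · exfalso
    obtain ⟨e, eC, he⟩ := hC.enum T.toCtx zC z1
    have he' := (hπ.t3 (fun M _ => Enum M) dC zC eC).1 he
    rw [π1] at he'
    obtain ⟨w0, -, w1, w2⟩ := (hπ.t2 (fun M _ d z => ∃ w ∈ M, w ⊆ Tr d ∧ PrecH M d w z) dC zC).2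
      (by rw [π1]; exact ⟨z, zH, z1, (T.prec z1 z1').2 hlt⟩)
    have hA : insert d ((d : Set ZF) ∪ {w | w ⊆ Tr d ∧ key U w < key U z}) ⊆ HC c := by
      rintro b (rfl | hb | hb)
      exacts [dH, dH' b hb, HC.sub_tr hc hb.1]
    have NA : ∀ x1 ∈ dcl (HC c) ∅ (insert d ((d : Set ZF) ∪ {w | w ⊆ Tr d ∧ key U w < key U z})),
        x1 ∉ MM c S Φ := by
      intro x1 h1 h2
      obtain ⟨l, h3, h4⟩ := fin_supp g hA h1
      obtain ⟨w, h5, h6⟩ := Set.exists_max_image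
        {w | w ∈ w0 :: l ∧ w ⊆ Tr d ∧ key U w < key U z} (key U)
        ((List.finite_toSet _).subset fun w hw => hw.1) ⟨w0, by simp, w1, (T.prec w1 z1).1 w2⟩
      refine zmin w ⟨h5.2.1, x1, h2, h4 _ (hB1 w h5.2.1) fun b hb => ?_⟩ h5.2.2
      rcases h3 b hb with rfl | h7 | h7
      · exact subset_dcl (hB1 w h5.2.1) (by simp)
      · exact subset_dcl (hB1 w h5.2.1) (Or.inr h7)
      · exact T.pred_dcl h7.1 h5.2.1 (h6 b ⟨by simp [hb], h7⟩)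
    have hA' : insert d ((d : Set ZF) ∪ {w | w ⊆ Tr d ∧ key U w < key U z}) ∩ C ⊆ HC c :=
      Set.inter_subset_left.trans hA
    have hX := T.hull hA' ⟨Set.mem_insert _ _, dC⟩
    set X := dcl (HC c) ∅ (insert d ((d : Set ZF) ∪ {w | w ⊆ Tr d ∧ key U w < key U z}) ∩ C)
    have hs : X ⊆ C := dcl_subset_dcl g hB Set.inter_subset_right
    have hη : ∀ a ∈ d, a ∈ C → a ∈ X := fun a h1 h2 => subset_dcl hA' ⟨Or.inr (Or.inl h1), h2⟩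
    obtain ⟨G, GC, G1, G2⟩ := hC.fam (QA τ) zC eC (by
      rintro _ w hw w' hw' ⟨b, -, s, -, rfl, _, -, rfl, -, -, _, -, rfl, h1⟩
        ⟨b', -, s', -, e', _, -, rfl, -, -, _, -, rfl, h2⟩
      obtain ⟨rfl, rfl⟩ := pair_inj.1 e'
      exact h2.2 w hw h1.1)
    obtain ⟨y, yC, hy⟩ := T.sol3 hC hX hs xC hx (fun w hw =>
      NA w (dcl_mono g hA Set.inter_subset_left hw)) ((hC.p_eq T.toCtx
        ((hC.c2 (fun _ _ a b => a ⊆ Tr b) GC dC).2 G1)).1 ⟨G, GC, rfl⟩)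
        ((hC.c2 (fun _ _ a b => a ⊆ Tr b) GC dC).2 G1)
    obtain ⟨_, -, w, h1, b, hb, s, h2, rfl, _, -, rfl, h3, h4, _, -, rfl, h5⟩ :=
      T.fin hC hπ π1 (fun M U d z e _ => QA τ M U d z e) (hQ := (df_QA τ).comp
        (cons 0 (cons 1 (cons 2 (cons 4 fun _ => 5))))) zC eC dC yC (by
        intro b0 h0 h0' w hw hw' hq
        have h1 := G2 b0 h0' w hw hw' hq
        obtain ⟨b, hb, s, h2, rfl, _, -, rfl, h3, h4, _, -, rfl, h5⟩ := hq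
        obtain ⟨bC, sC⟩ := hC.of_pair h0
        have wX : w ∈ X := h5.dcl g hA' hX.hd (subset_dcl hA' ⟨Or.inr (Or.inr
          ⟨h3, (T.prec h3 z1).1 h4⟩), sec_dcl hc hB eC bC⟩) (entS_dcl hc hA' hX.hd
          (hC.agree hX hs dO hη s (Lst_sub_Tr d h2) sC).1) hw
        refine hy _ h0 h0' w wX hw' ?_
        rw [← hC.agree' hX hs dO hη hw']
        exact (hC.c3 (fun _ _ a b e => sec a b = e) GC h0 (hs wX)).2 h1) (by
        obtain ⟨b, hb, e1⟩ := he' z zH z1 ((T.prec z1 z1').2 hlt)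
        have h1 := ZL_mem_Lst.2 lpd
        exact ⟨_, pair_mem_Tr (mem_Tr_of_mem hb) (Lst_sub_Tr d h1), x, hx, b, hb, _, h1, rfl, z,
          zH, e1, z1, (T.prec z1 z1').2 hlt, p, pH, by rw [entS_ZL lpd, hlp], hτ⟩)
    have dA := subset_dcl (U := ∅) hA (Set.mem_insert _ _)
    exact NA w (h5.dcl g hA dA (subset_dcl hA (Or.inr (Or.inr ⟨h3, (T.prec h3 z1).1 h4⟩)))
      (entS_dcl hc hA dA (lst_dcl g hA h2 fun b hb => subset_dcl hA (Or.inr (Or.inl hb))))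
      (HC.sub_tr hc h1.1)) h1
  have πz := (key_inj T.hV heq).symm
  rw [πz] at hτ'
  rcases (pmin' _ _ p1' p2' hx' hτ').lt_or_eq with hlt | heq
  swap
  · rw [← fq_inj p1 p1' heq] at hτ'
    exact hτ.2 x' (HC.sub_tr hc hx'.1) hτ'.1
  exfalso
  obtain ⟨a', a1, a2, a3, a4⟩ := (clx_iff p1 p1').2 hlt
  have lpC : ∀ b ∈ p, b ∈ C := elem_dcl g hB p1 pC
  obtain ⟨a, ap, rfl⟩ : ∃ a ∈ p, π a = a' := by
    rw [hlp, hπ.setL g hB fun b hb => lpC b (hlp ▸ mem_setL.2 hb), mem_setL, List.mem_map] at a1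
    obtain ⟨a, h1, h2⟩ := a1
    exact ⟨a, hlp ▸ mem_setL.2 h1, h2⟩
  have aC := lpC a ap
  have aO := p1.1 a ap
  have ad : a ⊆ d := dO.subset_of_mem (p2 ap)
  set u := p.sep fun b => a ∈ b with hu
  have u1 : FinOrd u := ⟨fun b hb => p1.1 b (mem_sep.1 hb).1, p1.2.subset fun b hb =>
    (mem_sep.1 hb).1⟩
  have uC : u ∈ C := fin_dcl g hB u1.2 fun b hb => lpC b (mem_sep.1 hb).1
  have πu := (hπ.t3 (fun _ _ u p a => u = p.sep fun b => a ∈ b) uC pC aC).1 rfl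
  have hA : {d, z, u} ∪ (a : Set ZF) ⊆ HC c := by
    rintro b ((rfl | rfl | rfl) | hb)
    exacts [dH, zH, HC.sub hc pH sep_subset, dH' b (ad hb)]
  have NB : ∀ x1 ∈ dcl (HC c) ∅ ({d, z, u} ∪ (a : Set ZF)), x1 ∉ MM c S Φ := by
    intro x1 h1 h2
    obtain ⟨l, h3, h4⟩ := fin_supp g hA h1
    have h5 : ∀ b ∈ setL (l.filter (· ∈ a)), b ∈ a := fun b hb => by
      simpa using (List.mem_filter.1 (mem_setL.1 hb)).2
    have h6 : u ∪ setL (l.filter (· ∈ a)) ⊆ d := fun b hb =>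
      (mem_union.1 hb).elim (fun h => p2 (mem_sep.1 h).1) fun h => ad (h5 b h)
    have h7 : FinOrd (u ∪ setL (l.filter (· ∈ a))) := ⟨fun b hb => dO.mem (h6 hb),
      (u1.2.union (List.finite_toSet (l.filter (· ∈ a)))).subset fun b hb =>
        (mem_union.1 hb).imp_right mem_setL.1⟩
    have hB' := hB2 z _ z1 h6
    have h8 := elem_dcl (U := ∅) g hB' h7 (mem_dcl_list hB' (by simp))
    refine pmin _ ⟨h7, h6, x1, h2, h4 _ hB' fun b hb => ?_⟩ ((clx_iff h7 p1).1 ⟨a, ap, fun h => ?_,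
      fun b hb hab => ?_, fun b hb hab => mem_union.2 (Or.inl (mem_sep.2 ⟨hb, hab⟩))⟩)
    · rcases h3 b hb with (rfl | rfl | rfl) | h9
      · exact mem_dcl_list hB' (by simp)
      · exact mem_dcl_list hB' (by simp)
      · exact fin_dcl g hB' u1.2 fun b hb => h8 b (mem_union.2 (Or.inl hb))
      · exact h8 b (mem_union.2 (Or.inr (by simpa [hb] using h9)))
    · exact (mem_union.1 h).elim (fun h => mem_irrefl a (mem_sep.1 h).2)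
        fun h => mem_irrefl a (h5 a h)
    · exact (mem_union.1 hb).elim (fun h => (mem_sep.1 h).1) fun h => (mem_asymm hab (h5 b h)).elim
  have hA' : ({d, z, u} ∪ (a : Set ZF)) ∩ C ⊆ HC c := Set.inter_subset_left.trans hA
  have hX := T.hull hA' ⟨Or.inl (Or.inl rfl), dC⟩
  set X := dcl (HC c) ∅ (({d, z, u} ∪ (a : Set ZF)) ∩ C)
  have hs : X ⊆ C := dcl_subset_dcl g hB Set.inter_subset_right
  have hη : ∀ b ∈ a, b ∈ C → b ∈ X := fun b h1 h2 => subset_dcl hA' ⟨Or.inr h1, h2⟩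
  have zX : z ∈ X := subset_dcl hA' ⟨by simp, zC⟩
  have uX : u ∈ X := subset_dcl hA' ⟨by simp, uC⟩
  obtain ⟨G, GX, G1, G2⟩ := hX.fam (QB τ) zX uX (by
    rintro _ w hw w' hw' ⟨_, -, rfl, h1⟩ ⟨_, -, rfl, h2⟩
    exact h2.2 w hw h1.1)
  obtain ⟨y, yC, hy⟩ := T.sol3 hC hX hs xC hx (fun w hw =>
    NB w (dcl_mono g hA Set.inter_subset_left hw)) (hC.om_mono T.toCtx hX hs ((hX.p_eq T.toCtx
      ((hX.c2 (fun _ _ a b => a ⊆ Tr b) GX hX.hd).2 G1)).1 ⟨G, GX, rfl⟩))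
      (((hX.c2 (fun _ _ a b => a ⊆ Tr b) GX hX.hd).2 G1).trans (Tr_mono (hC.d_sub hX hs)))
  obtain ⟨b, -, w, h1, h2, _, -, rfl, h5⟩ :=
    T.fin hC hπ π1 (fun M U d z u a b w => b ∈ Lst a ∧ QB τ M U d z u b w) zC uC aC yC (by
      rintro b h0 h0' w hw hw' ⟨h2, hq⟩
      have h1 := G2 b h0' w hw hw' hq
      obtain ⟨_, -, rfl, h5⟩ := hq
      have h3 := hC.agree hX hs aO hη b (Lst_sub_Tr a h2) h0
      have wX : w ∈ X := h5.dcl g hA' hX.hd zX (union_dcl g hA' uX (entS_dcl hc hA' hX.hd h3.1)) hw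
      refine hy _ h0 h0' w wX hw' ?_
      rw [h3.2]
      exact (hX.c3 (fun _ _ a b e => sec a b = e) GX h3.1 wX).2 h1) (by
      have h1 : ∀ b ∈ lp.filter (· ∈ π a), b ∈ d := fun b hb => lpd b (List.mem_filter.1 hb).1
      refine ⟨_, Lst_sub_Tr d (ZL_mem_Lst.2 h1), x, hx,
        ZL_mem_Lst.2 fun b hb => by simpa using (List.mem_filter.1 hb).2, p, pH, ?_, by rw [πz]; exact hτ⟩
      rw [entS_ZL h1, πu]
      ext b
      simp only [mem_union, mem_sep, mem_setL, List.mem_filter, decide_eq_true_eq]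
      rw [← mem_setL, ← hlp]
      refine ⟨fun hb => ?_, fun hb => hb.elim (fun h => a4 b h.1 h.2) fun h => h.1⟩
      rcases (p1.1 b hb).mem_trichotomous (p1'.1 _ a1) with h | h | h
      · exact Or.inr ⟨hb, h⟩
      · exact absurd (h ▸ hb) a2
      · exact Or.inl ⟨a3 b hb h, h⟩)
  have dA := subset_dcl (U := ∅) hA (show d ∈ _ by simp)
  exact NB w (h5.dcl g hA dA (subset_dcl hA (by simp)) (union_dcl g hA (subset_dcl hA (by simp))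
    (entS_dcl hc hA dA (lst_dcl g hA h2 fun b hb => subset_dcl hA (Or.inr hb))))
    (HC.sub_tr hc h1.1)) h1

end Setup2

end Pool.Agent.MP_477625_lc.H75
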