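import Pool.Agent.MP_477625_lc.H71.Core

/-! The main theorem without a characterization of the cardinal. -/

namespace Pool.Agent.MP_477625_lc.H75
open ZFSet Cardinal

set_option linter.unusedVariables false
set_option linter.unusedSectionVars false
set_option synthInstance.maxSize 100000

theorem Ctx.wrap {κ c : Cardinal.{0}} {U : ZF} {σ : List ℕ}
    (T : Ctx κ U c) (R : Set ZF → Set ZF → ZF → ZF → Prop)
    [hR : Df ℕ fun M U v => R M U (v 0) (v 1)] : ∃ ψ : Sentence σ, ∀ (M : Struc σ) (b : M.A → ZF),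
      Bij b (cardSet c) → Phi σ (HC c) ∅ (cardSet c) (Code M b (cardSet c)) →
      (M.Sat ψ ↔ R (HC c) ∅ (cardSet c) (Code M b (cardSet c))) := by
  have i : ∀ {K : Type} {a b : Set ZF → Set ZF → (K → ZF) → ZF} [DT K a] [DT K b],
      Df K fun M U v => R M U (a M U v) (b M U v) := Df.sub2 hR _ _
  have i1 := sd_link σ (K := Option (Option Empty)) (J := Option (Option (Option Empty))) none
    (some (some none)) none
  have i2 := SD.df (σ := σ) (K := Option (Option Empty)) (J := Option (Option (Option Empty)))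
    (P := fun M U v => (v 0).IsOrdinal ∧ (∀ a ∈ v 0, ¬ Inj M (v 0) a) ∧
      Phi σ M U (v 0) (v 1) ∧ R M U (v 0) (v 1)) inferInstance
    (cons (some none) fun _ => none) (cons (some none) fun _ => none)
  obtain ⟨ψ, hψ⟩ := SD.sentence (I := Infinite) (σ := σ) (P := fun A v E ρ =>
    ∃ D E E' : A → A → Prop, ∃ a a' : A, (∀ u u', wval D u = wval D u' → u = u') ∧
      (∀ u, wval D u ∈ wval E a) ∧ (∀ t, E t a → ∃ u, wval D u = wval E t) ∧
      (∀ r l, σ[r]? = some l.length → (l ∈ ρ r ↔ pair (nat r) (ZL (l.map (wval D))) ∈ wval E' a')) ∧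
      ((wval E a).IsOrdinal ∧ (∀ t ∈ wval E a, ¬ Inj (HC #A) (wval E a) t) ∧
        Phi σ (HC #A) ∅ (wval E a) (wval E' a') ∧ R (HC #A) ∅ (wval E a) (wval E' a')))
    (SD.ex2 (h := SD.ex2 (h := SD.ex2 (h := SD.ex1 (h := SD.ex1 (h := SD.and (h' := SD.and
      (h' := SD.and (h' := SD.and (h := i1) (h' := i2))))))))))
  refine ⟨ψ, fun M b hb hΦ => ?_⟩
  have hM : #M.A = c := hb.card.symm.trans (card_cardSet c)
  have hc := T.hc
  have : Infinite M.A := infinite_iff.2 (hM ▸ hc)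
  have dH := HC.cardSet_mem hc
  rw [hψ M this, hM]
  constructor
  · rintro ⟨D, E, E', a, a', h1, h2, h3, h4, h5, h6, h7, h8⟩
    have h9 : Bij (wval D) (wval E a) := ⟨h1, fun y => ⟨fun hy => by
      obtain ⟨-, t, ht, rfl⟩ := mem_wval'.1 hy
      exact h3 t ht, fun ⟨u, e⟩ => e ▸ h2 u⟩⟩
    have h10 : (wval E a).card = c := h9.card.trans hM
    have e : wval E a = cardSet c := by
      rcases h5.mem_trichotomous (cardSet_ord c) with h | h | h
      · exact absurd ((mem_cardSet h5).1 h) (by rw [h10]; exact lt_irrefl c)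
      · exact h
      · exact absurd ((inj_iff hc (HC.ord_mem hc h5 h10.le) dH).2
          (h10.trans (card_cardSet c).symm).le) (h6 _ h)
    rw [e] at h7 h8 h9
    have e2 := eq_Code hc h9 h7.1 h4
    rw [e2] at h7 h8
    rwa [T.min_unique hb h9 hΦ h7]
  · intro h
    have hH : HA M.A = HC c := hM ▸ HA_eq M.A
    obtain ⟨E, a, e⟩ : cardSet c ∈ HA M.A := hH ▸ HC.cardSet_mem hc
    obtain ⟨E', a', e'⟩ : Code M b (cardSet c) ∈ HA M.A := hH ▸ HC.sub_tr hc sep_subset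
    have e1 : wval (fun u u' => b u ∈ b u') = b := funext (wval_mem fun u y hy =>
      (hb.rng y).1 ((cardSet_ord c).mem_trans hy ((hb.rng _).2 ⟨u, rfl⟩)))
    refine ⟨fun u u' => b u ∈ b u', E, E', a, a', ?_⟩
    have wf := (mem_wval'.1 (e ▸ nat_mem_cardSet hc 0)).1
    rw [e1, e', e]
    exact ⟨hb.inj, fun u => (hb.rng _).2 ⟨u, rfl⟩, fun t ht => (hb.rng _).1
      (e ▸ (mem_wval wf).2 ⟨t, ht, rfl⟩), fun r l _ => (mem_Code hc hb).symm, cardSet_ord c,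
      fun t ht hi => ((mem_cardSet ((cardSet_ord c).mem ht)).1 ht).not_ge
        ((card_cardSet c).ge.trans ((inj_iff hc dH (HC.trans _ dH t ht)).1 hi)), hΦ, h⟩

/-- `M` sees a model of the sentences with numbers in `S` on an ordinal with a power set. -/
def Small (k : ℕ) (S : ℕ → ℕ → Prop) (M : Set ZF) : Prop := ∃ a ∈ M, a.IsOrdinal ∧
  (∃ b ∈ a, b = b) ∧ (∃ P ∈ M, IsPw M a P) ∧ ∃ w ∈ M, w ⊆ Tr a ∧ ∀ n ∈ om, N2 S n n → TrT k M a w n

theorem exists_small (σ : List ℕ) (S : ℕ → ℕ → Prop) [ND2 S] : ∃ ψ : Sentence σ,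
    ∀ M : Struc σ, Infinite M.A → (M.Sat ψ ↔ Small σ.length S (HC #M.A)) := by
  have i2 := SD.df (σ := σ) (K := Option Empty) (J := Option Empty)
    (P := fun M U v => Small σ.length S M) (by unfold Small; infer_instance)
    (fun _ => none) (fun _ => none)
  obtain ⟨ψ, hψ⟩ := SD.sentence (I := Infinite) (σ := σ) (P := fun A v E ρ =>
    ∃ E : A → A → Prop, ∃ a : A, Small σ.length S (HC #A)) (SD.ex2 (h := SD.ex1 (h := i2)))
  refine ⟨ψ, fun M hM => (hψ M hM).trans ⟨fun ⟨_, _, h⟩ => h, fun h => ?_⟩⟩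
  obtain ⟨a⟩ := M.nonempty
  exact ⟨fun _ _ => True, a, h⟩

theorem small_down {σ : List ℕ} {S : Set (Sentence σ)} {c : Cardinal.{0}} (hc : ℵ₀ ≤ c)
    (h : Small σ.length (fun n _ => ∃ φ ∈ S, φ.1.code = n) (HC c)) :
    ∃ N : Struc σ, N.Models S ∧ #N.A < c := by
  obtain ⟨a, ha, ho, ⟨a0, h0, -⟩, ⟨P, hP, h1⟩, w, -, hw, h2⟩ := h
  obtain rfl := (isPw_iff hc ha hP).1 h1
  obtain ⟨b, hb⟩ := exists_bij (Cardinal.mk_out a.card)
  have ne : Nonempty a.card.out := let ⟨u, _⟩ := (hb.rng _).1 h0; ⟨u⟩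
  refine ⟨⟨a.card.out, ne,
    fun r => {l | σ[r]? = some l.length ∧ pair (nat r) (ZL (l.map b)) ∈ w}, fun r l h => h.1⟩,
    fun φ hφ v => ?_, (Cardinal.mk_out _).trans_lt (lt_of_pow_mem hP)⟩
  refine (hen_full hb.inj hb.rng (P := HC c) (fun R hR => HC.sub hc (HC.tr hc ha) hR) φ.1 φ.2 v _
    (fun _ => ∅) (fun r t => pair (nat r) t ∈ w) (by simp) fun r l h => and_iff_right h).2 ?_
  exact (trT_iff hc ho ha hP hw φ.2).1 (h2 _ (nat_mem_om _) (n2_nat.2 ⟨φ, hφ, rfl⟩))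

theorem small_up {κ : Cardinal.{0}} {U : ZF} (hU : IsNormalMeasure κ U)
    (hV : ∀ x : ZF, ∃ o, x ∈ LU U o) {σ : List ℕ} {S : Set (Sentence σ)} {M : Struc σ}
    (hM : M.Models S) (h0 : ℵ₀ ≤ #M.A) (h1 : #M.A < κ) {c : Cardinal.{0}} (h2 : #M.A < c) :
    Small σ.length (fun n _ => ∃ φ ∈ S, φ.1.code = n) (HC c) := by
  have hc := h0.trans h2.le
  obtain ⟨b, hb⟩ := exists_bij (card_cardSet #M.A).symm
  have ho := cardSet_ord #M.A
  have ha : cardSet #M.A ∈ HC c := HC.ord_mem hc ho ((card_cardSet _).trans_le h2.le)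
  have hP := pow_mem hU hV ho (h0.trans_eq (card_cardSet _).symm) ((card_cardSet _).trans_lt h1)
    ((card_cardSet _).trans_lt h2)
  have hw : Code M b (cardSet #M.A) ⊆ Tr (cardSet #M.A) := sep_subset
  refine ⟨_, ha, ho, ⟨_, nat_mem_cardSet h0 0, rfl⟩, ⟨_, hP, (isPw_iff hc ha hP).2 rfl⟩, _,
    HC.sub hc (HC.tr hc ha) hw, hw, all_om.2 fun n hn => ?_⟩
  obtain ⟨φ, hφ, rfl⟩ := n2_nat.1 hn
  refine (trT_iff hc ho ha hP hw φ.2).2 ?_
  exact (hen_congr (fun R hR => iff_of_true (HC.sub_tr h0 hR) (HC.sub hc (HC.tr hc ha) hR)) φ.1 φ.2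
    _ _ _ fun _ _ _ => Iff.rfl).1 ((sat_Code h0 hb φ).1 (hM φ hφ))

theorem main2 (κ : Cardinal.{0}) (U : ZF) (hU : IsNormalMeasure κ U)
    (hV : ∀ x : ZF, ∃ o : Ordinal.{0}, x ∈ LU U o) (σ : List ℕ) (T : Set (Sentence σ))
    (hT : Complete T) (hR : RecAxiomatized T) (M₀ : Struc σ) (hM₀ : M₀.Models T)
    (hκ₀ : #M₀.A < κ) : Categorical T := by
  obtain ⟨M, hM, hmin⟩ := (InvImage.wf (fun N : Struc σ => #N.A) wellFounded_lt).has_min
    {N | N.Models T} ⟨M₀, hM₀⟩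
  have hκ : #M.A < κ := (not_lt.1 (hmin M₀ hM₀)).trans_lt hκ₀
  intro N1 N2 h1 h2
  rcases lt_or_ge #M.A ℵ₀ with hc | hc
  · have : Finite M.A := lt_aleph0_iff_finite.1 hc
    obtain ⟨δ, h3, h4⟩ := finite_case M
    obtain ⟨e, -⟩ := h4 N1 ((hT.iff hM h1 δ).1 h3)
    have : Finite N1.A := Finite.of_equiv _ e
    obtain ⟨δ, h3, h4⟩ := finite_case N1
    exact h4 N2 ((hT.iff h1 h2 δ).1 h3)
  obtain ⟨S, hS, hS'⟩ := hR
  have hcard : ∀ N : Struc σ, N.Models T → #N.A = #M.A := by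
    intro N hN
    have h3 : #M.A ≤ #N.A := not_lt.1 (hmin N hN)
    refine h3.eq_or_lt.elim Eq.symm fun h4 => ?_
    have nd := nd_computable hS
    obtain ⟨ψ, hψ⟩ := exists_small σ fun n _ => ∃ φ ∈ S, φ.1.code = n
    obtain ⟨N', h5, h6⟩ := small_down hc ((hψ M (infinite_iff.2 hc)).1 ((hT.iff hN hM ψ).1
      ((hψ N (infinite_iff.2 (hc.trans h3))).2 (small_up hU hV ((hS' M).1 hM) hc hκ h4))))
    exact absurd h6 (hmin N' ((hS' N').2 h5))
  set c := #M.A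
  have T' : Setup2 κ U c σ (Subtype.val '' S) (Phi σ) :=
    { hU := hU
      hV := hV
      hc := hc
      hκ := hκ
      wf := by rintro _ ⟨φ, -, rfl⟩; exact φ.2
      nd := by simp only [Set.exists_mem_image]; exact nd_computable hS
      df := inferInstance }
  have code : ∀ x ∈ MM c (Subtype.val '' S) (Phi σ), ∃ (N : Struc σ) (b : N.A → ZF),
      N.Models T ∧ Bij b (cardSet c) ∧ x = Code N b (cardSet c) := by
    intro x hx
    obtain ⟨b, hb⟩ := exists_bij (card_cardSet c).symm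
    let N : Struc σ := ⟨M.A, M.nonempty,
      fun r => {l | σ[r]? = some l.length ∧ pair (nat r) (ZL (l.map b)) ∈ x}, fun r l h => h.1⟩
    have e := eq_Code hc (M := N) hb hx.2.1.1 fun r l h => and_iff_right h
    exact ⟨N, b, (hS' N).2 fun φ hφ => (sat_Code hc (M := N) hb φ).2
      (e ▸ hx.2.2 _ ⟨φ, hφ, rfl⟩), hb, e⟩
  have mem : ∀ N : Struc σ, N.Models T → ∃ b, Bij b (cardSet c) ∧
      Code N b (cardSet c) ∈ MM c (Subtype.val '' S) (Phi σ) := by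
    intro N hN
    obtain ⟨b, hb, h⟩ := T'.exists_min (hcard N hN)
    refine ⟨b, hb, sep_subset, h, ?_⟩
    rintro _ ⟨φ, hφ, rfl⟩
    exact (sat_Code hc hb φ).1 ((hS' N).1 hN φ hφ)
  obtain ⟨b1, h3, h4⟩ := mem N1 h1
  obtain ⟨b2, h5, h6⟩ := mem N2 h2
  refine iso_of_Code hc h3 h5 (T'.core (fun x hx x' hx' R hR => ?_) h4 h6)
  obtain ⟨ψ, hψ⟩ := T'.toCtx.wrap (σ := σ) R
  obtain ⟨N, b, h7, h8, rfl⟩ := code x hx
  obtain ⟨N', b', h7', h8', rfl⟩ := code x' hx'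
  rw [← hψ N b h8 hx.2.1, ← hψ N' b' h8' hx'.2.1]
  exact hT.iff h7 h7' ψ

end Pool.Agent.MP_477625_lc.H75
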