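import Pool.Agent.MP_477625_lc.H75.Final

/-! The continuum hypothesis below the measurable cardinal, and truth for smaller domains. -/

namespace Pool.Agent.MP_477625_lc.H75
open ZFSet Cardinal

set_option linter.unusedVariables false
set_option linter.unusedSectionVars false
set_option synthInstance.maxSize 100000

theorem mk_le_succ {α : Type 1} (r : α → α → Prop) [IsWellOrder α r] {c : Cardinal.{1}}
    (h : ∀ a, #{y // r y a} ≤ c) : #α ≤ Order.succ c := by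
  by_contra hn
  rw [not_le] at hn
  have h1 : (Order.succ c).ord < Ordinal.type r :=
    (Cardinal.ord_lt_ord.2 hn).trans_le (Cardinal.ord_le_type r)
  obtain ⟨a, ha⟩ := Ordinal.typein_surj r h1
  have h2 := h a
  rw [← Ordinal.card_typein, ha, Cardinal.card_ord] at h2
  exact (Order.lt_succ c).not_ge h2

theorem Ctx.gch {κ c : Cardinal.{0}} {U : ZF} (C : Ctx κ U c) : 2 ^ c ≤ Order.succ c := by
  let α := {w : ZF // w ∈ powerset (Tr (cardSet c))}
  let f : α → Key := fun w => key U w.1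
  have hf : Function.Injective f := fun a b e => Subtype.ext (key_inj C.hV e)
  have hw : IsWellOrder Key (· < ·) := { wf := wellFounded_lt }
  have := hf.isWellOrder (· < ·)
  have h1 : #α ≤ Order.succ (lift.{1} c) := by
    refine mk_le_succ (Function.onFun (· < ·) f) fun z => ?_
    obtain ⟨e, -, he⟩ := pred_enum C.hV C.hU C.hc C.hκ (mem_powerset.1 z.2)
    choose g g1 g2 using fun y : {y : α // (Function.onFun (· < ·) f) y z} =>
      he y.1.1 (mem_powerset.1 y.1.2) y.2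
    refine (mk_le_of_injective (f := fun y => (⟨g y, g1 y⟩ : (cardSet c : Set ZF)))
      fun y y' e' => ?_).trans ((mk_zf_le _).2 (card_cardSet c).le)
    have e1 : g y = g y' := congrArg Subtype.val e'
    exact Subtype.ext (Subtype.ext (by rw [g2 y, g2 y', e1]))
  rw [← lift_succ] at h1
  have h2 : (powerset (Tr (cardSet c))).card ≤ Order.succ c := (mk_zf_le _).1 h1
  rw [card_powerset] at h2
  refine (Cardinal.power_le_power_left two_ne_zero ?_).trans h2
  exact (card_cardSet c).ge.trans (card_mono fun y hy => mem_Tr_of_mem hy)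

theorem card_Tr_le {a : ZF} (h : ℵ₀ ≤ a.card) : (Tr a).card ≤ a.card := by
  have := mk_Tr_le a
  rwa [max_eq_left h, mk_zf_le] at this

theorem pow_mem {κ c : Cardinal.{0}} {U : ZF} (hU : IsNormalMeasure κ U)
    (hV : ∀ x : ZF, ∃ o, x ∈ LU U o) {a : ZF} (ho : a.IsOrdinal) (h0 : ℵ₀ ≤ a.card)
    (h1 : a.card < κ) (h2 : a.card < c) : powerset (Tr a) ∈ HC c := by
  have hc := h0.trans h2.le
  refine HC.of_sub hc (fun R hR => HC.sub hc (HC.tr hc (HC.ord_mem hc ho h2.le))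
    (mem_powerset.1 hR)) ((mk_zf_le _).2 ?_)
  rw [card_powerset]
  exact (Cardinal.power_le_power_left two_ne_zero (card_Tr_le h0)).trans
    ((Ctx.gch ⟨hU, hV, h0, h1⟩).trans (Order.succ_le_of_lt h2))

theorem lt_of_pow_mem {c : Cardinal.{0}} {a : ZF} (h : powerset (Tr a) ∈ HC c) : a.card < c := by
  have h1 := HC.card_le h
  rw [card_powerset] at h1
  exact ((card_mono fun y hy => mem_Tr_of_mem hy).trans_lt (cantor _)).trans_le h1

theorem aleph0_le_card {a : ZF} (h : ∀ n, nat n ∈ a) : ℵ₀ ≤ a.card := by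
  have h1 : #ℕ ≤ a.card := by
    have := mk_le_of_injective (f := fun n : ULift.{1} ℕ => (⟨nat n.down, h _⟩ : (a : Set ZF)))
      fun m n e => ULift.ext _ _ (nat_inj.1 (congrArg Subtype.val e))
    have h2 : #(a : Set ZF) = lift.{1} a.card := cardinalMk_coe_sort
    rw [h2, mk_uLift, lift_le] at this
    exact this
  simpa using h1

/-- `P` is the set of all subsets of `Tr a` in `M`. -/
def IsPw (M : Set ZF) (a P : ZF) : Prop := ∀ R ∈ M, R ∈ P ↔ R ⊆ Tr a

instance Df.isPw {K : Type} {a b : Set ZF → Set ZF → (K → ZF) → ZF} [DT K a] [DT K b] :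
    Df K fun M U v => IsPw M (a M U v) (b M U v) :=
  Df.sub2 (R := fun M _ => IsPw M) (by unfold IsPw; infer_instance) _ _

theorem isPw_iff {c : Cardinal.{0}} (hc : ℵ₀ ≤ c) {a P : ZF} (ha : a ∈ HC c) (hP : P ∈ HC c) :
    IsPw (HC c) a P ↔ P = powerset (Tr a) := by
  constructor
  · intro h
    ext R
    rw [mem_powerset]
    exact ⟨fun hR => (h R (HC.trans P hP R hR)).1 hR,
      fun hR => (h R (HC.sub hc (HC.tr hc ha) hR)).2 hR⟩
  · rintro rfl R _
    exact mem_powerset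

/-- The formula with number `n` is true over the domain `a` for the code `w`. -/
def TrT (k : ℕ) (M : Set ZF) (a w n : ZF) : Prop := ∃ P ∈ M, IsPw M a P ∧ ∃ H ∈ M, IsHSet H a P ∧
  ∃ s ∈ M, LenL k s ∧ (∀ i < k, ∃ R ∈ M, Look R s (nat i) ∧ R = sec w (nat i)) ∧
    pair n (pair ∅ s) ∈ H

theorem df_trT (k : ℕ) : Df ℕ fun M U v => TrT k M (v 0) (v 1) (v 2) := by
  have i1 : Df (Option (Option (Option ℕ))) fun M U w => ∀ i < k, ∃ R ∈ M,
      Look R (w none) (nat i) ∧ R = sec (w (some (some (some 1)))) (nat i) :=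
    Df.all_lt _ fun i => inferInstance
  exact Df.exM (h := Df.and (h' := Df.exM (h := Df.and (h' := Df.exM (h := Df.and
    (h' := Df.and (h := i1)))))))

instance Df.trT {K : Type} (k : ℕ) {a b c : Set ZF → Set ZF → (K → ZF) → ZF} [DT K a] [DT K b]
    [DT K c] : Df K fun M U v => TrT k M (a M U v) (b M U v) (c M U v) :=
  Df.sub3 (R := fun M _ => TrT k M) (df_trT k) _ _ _

theorem prod_mem {c : Cardinal.{0}} (hc : ℵ₀ ≤ c) {a b : ZF} (ha : a ∈ HC c) (hb : b ∈ HC c) :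
    prod a b ∈ HC c := by
  refine HC.of_sub hc (fun w hw => ?_) ?_
  · obtain ⟨x, hx, y, hy, rfl⟩ := mem_prod.1 hw
    exact (HC.good hc).pair (HC.trans a ha x hx) (HC.trans b hb y hy)
  · have : (prod a b : Set ZF) ⊆ Set.range fun p : ↥(a : Set ZF) × ↥(b : Set ZF) =>
        pair p.1.1 p.2.1 := fun w hw => by
      obtain ⟨x, hx, y, hy, rfl⟩ := mem_prod.1 hw
      exact ⟨(⟨x, hx⟩, ⟨y, hy⟩), rfl⟩
    refine (mk_le_mk_of_subset this).trans (mk_range_le.trans ?_)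
    rw [mk_prod, lift_id, lift_id]
    exact mul_le_of_le (aleph0_le_lift' hc) (HC.mk_le ha) (HC.mk_le hb)

theorem trT_iff {c : Cardinal.{0}} (hc : ℵ₀ ≤ c) {a w : ZF} (ho : a.IsOrdinal) (ha : a ∈ HC c)
    (hP : powerset (Tr a) ∈ HC c) (hw : w ⊆ Tr a) {σ : List ℕ} {φ : SO} (hφ : φ.WF 0 σ) :
    TrT σ.length (HC c) a w (nat φ.code) ↔ HenS a (HC c) φ w := by
  have g := HC.good hc
  set l := (List.range σ.length).map fun i => sec w (nat i) with hl
  have hl1 : ∀ i < σ.length, asg l i = sec w (nat i) := fun i hi => by simp [asg, hl, hi]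
  have hl2 : ∀ i, sec w (nat i) ∈ powerset (Tr a) := fun i => mem_powerset.2 (sec_sub_Tr ho hw)
  have hl3 : ∀ R ∈ l, R ∈ powerset (Tr a) := map_mem (N := (powerset (Tr a) : Set ZF)) hl2 _
  refine Iff.trans ?_ ((mem_HSet (D := a) (φ := φ) (l := []) (by simp) hl3).trans ?_)
  · constructor
    · rintro ⟨P, h1, h2, H, -, h3, s, -, e3, e4, e5⟩
      obtain rfl := (isPw_iff hc ha h1).1 h2
      obtain rfl : H = _ := h3
      obtain ⟨l', rfl⟩ := e3.exists
      have e6 := lenL_ZL.1 e3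
      have : l' = l := List.ext_getElem (by simp [hl, e6]) fun i hi hi' => by
        obtain ⟨R, -, e7, e8⟩ := e4 i (e6 ▸ hi)
        rw [look_ZL.1 e7, ← hl1 i (e6 ▸ hi)] at e8
        simpa [asg, hi, hi'] using e8
      exact this ▸ e5
    · intro e5
      exact ⟨_, hP, (isPw_iff hc ha hP).2 rfl, _, HC.sub hc (prod_mem hc (HC.om_mem hc)
        (prod_mem hc (HC.lst hc ha) (HC.lst hc hP))) sep_subset, rfl, ZL l,
        g.ZL.2 fun R hR => HC.trans _ hP R (hl3 R hR), lenL_ZL.2 (by simp [hl]),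
        fun i hi => ⟨_, HC.trans _ hP _ (hl2 i), look_ZL.2 (hl1 i hi).symm, rfl⟩, e5⟩
  · rw [asg_nil]
    refine hen_congr (fun R hR => ?_) φ hφ _ _ _ fun r hr t => by rw [hl1 r hr, mem_sec]
    exact iff_of_true (mem_powerset.2 hR) (HC.sub hc (HC.tr hc ha) hR)

/-- There is an injection of `d` into `a` in `M`. -/
def Inj (M : Set ZF) (d a : ZF) : Prop := ∃ f ∈ M, (∀ y ∈ d, ∃ t ∈ a, pair y t ∈ f) ∧
  ∀ y ∈ d, ∀ y' ∈ d, ∀ t ∈ a, pair y t ∈ f → pair y' t ∈ f → y = y'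

instance Df.inj {K : Type} {a b : Set ZF → Set ZF → (K → ZF) → ZF} [DT K a] [DT K b] :
    Df K fun M U v => Inj M (a M U v) (b M U v) :=
  Df.sub2 (R := fun M _ => Inj M) (by unfold Inj; infer_instance) _ _

theorem inj_iff {c : Cardinal.{0}} (hc : ℵ₀ ≤ c) {d a : ZF} (hd : d ∈ HC c) (ha : a ∈ HC c) :
    Inj (HC c) d a ↔ d.card ≤ a.card := by
  classical
  have e1 : #(a : Set ZF) = lift.{1} a.card := cardinalMk_coe_sort
  rw [← mk_zf_le, ← e1]
  constructor
  · rintro ⟨f, -, h1, h2⟩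
    choose! g g1 g2 using h1
    exact mk_le_of_injective (f := fun y : (d : Set ZF) => (⟨g y, g1 y y.2⟩ : (a : Set ZF)))
      fun y y' e => Subtype.ext (h2 _ y.2 _ y'.2 _ (g1 _ y.2) (g2 _ y.2) (by
        have e' : g y = g y' := congrArg Subtype.val e
        rw [e']; exact g2 _ y'.2))
  · rintro ⟨g⟩
    let f : ZF → ZF := fun y => if h : y ∈ d then (g ⟨y, h⟩).1 else ∅
    have hf : ∀ y (h : y ∈ d), f y = (g ⟨y, h⟩).1 := fun y h => dif_pos h
    have hm : ∀ y ∈ d, f y ∈ a := fun y h => hf y h ▸ (g ⟨y, h⟩).2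
    refine ⟨graph d f, HC.graph_mem hc hd fun y h => HC.trans a ha _ (hm y h),
      fun y h => ⟨_, hm y h, mem_graph.2 ⟨h, rfl⟩⟩, fun y h y' h' t _ e e' => ?_⟩
    have := (mem_graph.1 e).2.symm.trans (mem_graph.1 e').2
    rw [hf y h, hf y' h'] at this
    exact congrArg Subtype.val (g.injective (Subtype.ext this))

namespace Hull
variable {c : Cardinal.{0}} {X X' : Set ZF} (h : Hull c X)
variable {κ : Cardinal.{0}} {U : ZF} (C : Ctx κ U c)
include h C

theorem om_eq2 (h' : Hull c X') (hs : X' ⊆ X) (e : Om κ U c X' = Om κ U c X)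
    (e1 : col X' (cardSet c) = col X (cardSet c)) {x : ZF} (hx : x ∈ X) : ∃ x' ∈ X',
      ∀ (R : Set ZF → Set ZF → ZF → ZF → Prop) [hR : Df ℕ fun M U v => R M U (v 0) (v 1)],
        R (HC c) ∅ (cardSet c) x ↔ R (HC c) ∅ (cardSet c) x' := by
  have hd := h.d_sub h' hs
  have hP : ∀ R, R ⊆ Tr (col X' (cardSet c)) → (R ∈ col X' '' X' ↔ R ∈ col X '' X) :=
    fun R hR => by rw [h'.p_eq C hR, e, h.p_eq C (hR.trans (Tr_mono hd))]
  have e2 : col X '' X = col X' '' X' := subset_antisymm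
    (h.cb_sub h' e1 fun R hR => (hP R (e1 ▸ hR)).2) (h'.cb_sub h e1.symm fun R hR => (hP R hR).1)
  obtain ⟨x', h4, h5⟩ : col X x ∈ col X' '' X' := e2 ▸ ⟨x, hx, rfl⟩
  exact ⟨x', h4, fun R hR => by rw [← h.c2 R h.hd hx, ← h'.c2 R h'.hd h4, e1, e2, h5]⟩

/-- Solidity when the collapse of the cardinal drops. -/
theorem sol2 (h' : Hull c X') (hs : X' ⊆ X) (e : Om κ U c X' = Om κ U c X)
    (hne : col X' (cardSet c) ≠ col X (cardSet c)) {G : ZF} (hG : G ∈ Om κ U c X)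
    (hG' : G ⊆ Tr (col X (cardSet c))) (σ : List ℕ) :
    ∃ y ∈ X, ∀ b ∈ X, b ∈ Tr (cardSet c) → ∀ w ∈ X',
      w ⊆ Tr (cardSet c) → sec G (col X b) = col X' w → ∀ φ : SO, φ.WF 0 σ →
      (pair b (H75.nat φ.code) ∈ y ↔ HenS (cardSet c) (HC c) φ w) := by
  have hc := h.hc
  have hd := h.d_sub h' hs
  have hP : ∀ R, R ⊆ Tr (col X' (cardSet c)) → (R ∈ col X' '' X' ↔ R ∈ col X '' X) :=
    fun R hR => by rw [h'.p_eq C hR, e, h.p_eq C (hR.trans (Tr_mono hd))]
  obtain ⟨a, ha, ha', ea⟩ := mem_col.1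
    (((h'.ord_d.subset_iff_eq_or_mem h.ord_d).1 hd).resolve_left hne)
  obtain ⟨G, GX, rfl⟩ := (h.p_eq C hG').2 hG
  have ao := (cardSet_ord c).mem ha
  have a1 := (mem_cardSet ao).1 ha
  have a0 : ℵ₀ ≤ a.card := aleph0_le_card fun n =>
    (h.c1 (fun _ _ a => H75.nat n ∈ a) ha').1 (ea ▸ h'.nat_mem_d n)
  have hp := pow_mem C.hU C.hV ao a0 (a1.trans C.hκ) a1
  obtain ⟨y, hy, h6⟩ := h.tv.df (K := ℕ) h.good (fun M U w => ∀ b ∈ Tr (w (some 0)), ∀ n ∈ om,
    (pair b n ∈ w none ↔ ∃ t ∈ M, t = sec (w (some 2)) b ∧ TrT σ.length M (w (some 1)) t n))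
    (cons (cardSet c) (cons a fun _ => G)) (cons_mem h.hd (cons_mem ha' fun _ => GX))
    ⟨(Tr (cardSet c)).sep fun p => ∃ b n, p = pair b n ∧ ∃ t ∈ HC c, t = sec G b ∧
      TrT σ.length (HC c) a t n, HC.sub_tr hc sep_subset, fun b hb n hn => by
      simp only [ext_none, ext_some, cons_zero, cons_succ] at *
      obtain ⟨m, rfl⟩ := mem_om.1 hn
      rw [mem_sep, and_iff_right (pair_mem_Tr hb (mem_Tr_of_mem (nat_mem_cardSet hc m)))]
      refine ⟨?_, fun h => ⟨_, _, rfl, h⟩⟩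
      rintro ⟨b', n', e, h⟩
      obtain ⟨rfl, rfl⟩ := pair_inj.1 e
      exact h⟩
  simp only [ext_none, ext_some, cons_zero, cons_succ] at h6
  refine ⟨y, hy, fun b hb hb' w hw hw' e1 φ hφ => ?_⟩
  have m1 := HC.sec_mem hc (h.tv.sub GX) b
  obtain ⟨t, tX, ht⟩ := h.tv.df (K := ℕ) h.good
    (fun M U w => w none = sec (w (some 0)) (w (some 1))) (cons G fun _ => b)
    (cons_mem GX fun _ => hb) ⟨_, m1, rfl⟩
  obtain rfl : t = sec G b := ht
  have e2 : col X (sec G b) = col X' w :=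
    ((h.c3 (fun _ _ a b e => sec a b = e) GX hb tX).2 rfl).symm.trans e1
  have hw2 : col X' w ⊆ Tr (col X' (cardSet c)) := (h'.c2 (fun _ _ a b => a ⊆ Tr b) hw h'.hd).2 hw'
  have hw3 : sec G b ⊆ Tr a := (h.c2 (fun _ _ a b => a ⊆ Tr b) tX ha').1 (by rwa [e2, ea])
  rw [h6 b hb' _ (nat_mem_om _), ← h'.c2 (fun M _ d w => HenS d M φ w) h'.hd hw]
  refine Iff.trans ⟨fun ⟨t, _, e, h⟩ => e ▸ h, fun h => ⟨_, m1, rfl, h⟩⟩ ?_
  rw [trT_iff hc ao (h.tv.sub ha') hp hw3 hφ, ← h.c2 (fun M _ d w => HenS d M φ w) ha' tX, ea, e2]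
  exact (hen_congr hP φ hφ _ _ _ fun _ _ _ => Iff.rfl).symm

end Hull

end Pool.Agent.MP_477625_lc.H75
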